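import Pool.Agent.H84.DPC.Stmts
import Pool.Agent.H44.DPC.ActTime

/-!
# The double plateau, part (alpha): the activity
-/

set_option autoImplicit false

namespace Pool.S6C

open Finset Real
open Pool.Agent.H49.Ent Pool.Agent.H32.Dense Pool.STK Pool.KA Pool.KSAT Pool.K2S Pool.PB Pool.KS6
  Pool.Sel51

/-- **(T4)** The velocity is active given the exact point. -/
theorem dact_thm : DActStmt := by
  intro S a R h₁ i₀ c s₂ r D σ hC act K W v₁ t e₁ Q₀ P g v₀ a₀ α hL N M ϖ κ ε hϖ hκ hε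
  obtain ⟨δ, hδ, h⟩ := dpl_act_time hC hL hκ hϖ (C := 1 / (8 * ε)) (by positivity) one_pos M
  refine ⟨1, δ, one_pos, hδ, ?_⟩
  intro rc pe x L e G hL0 _ hx hZ u₀
  have he := hZ.e0
  have heL := hZ.eL
  have hLp : 0 < L := by linarith
  have hxp : 0 < x := lt_of_lt_of_le (by positivity) hx
  by_cases hxL : x ≤ L / 4
  · refine Clp.mono (J₂ := 0) (h (2 * x) (by positivity) (by linarith)) ?_
    intro J _ F A h1 w₀ q V H X hD k hk n X' hX' hn E hE hPE
    have hJ0 : (0 : ℝ) ≤ J := Nat.cast_nonneg J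
    have hql := hD.ql
    have hqu := hD.qu
    have hq0 : (q : ℝ) ≤ ((q + (M + 2) * X : ℕ) : ℝ) := by
      exact_mod_cast Nat.le_add_right _ _
    have hx1 : L / 4 ≤ 1 / (8 * ε) * (2 * x) := by
      rw [div_mul_eq_mul_div, le_div_iff₀ (by positivity)]
      linarith
    have hx2 := mul_le_mul_of_nonneg_right hx1 hJ0
    refine (h1 X q ?_ hD.Xx ?_).2 k hk.le n X' hX' hn E hE hPE
    · have := hD.xX
      linarith
    · rw [abs_le]
      constructor <;> linarith
  · refine Clp.of one_pos 1 fun J hJ F A _ w₀ q V H X hD => ?_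
    exfalso
    apply hxL
    have hJ0 : (0 : ℝ) < J := by exact_mod_cast hJ
    have hX0 : (0 : ℝ) ≤ X := Nat.cast_nonneg X
    have hM0 : (0 : ℝ) ≤ M := Nat.cast_nonneg M
    have h1 := hD.xX
    have h2 := hD.ql
    have h3 := hD.qu
    push_cast at h3
    have h4 : 0 ≤ (M : ℝ) * X := by positivity
    have h5 : x * J ≤ L / 4 * J := by nlinarith
    exact le_of_mul_le_mul_right h5 hJ0

end Pool.S6C
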